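import Pool.Agent.X8.AMTop

/-!
# The complete graph maximises the trace of the adjacency average mixing matrix

`Pool.Agent.X8.AM.eigProj A μ` is the matrix of the orthogonal projection of `ℝ^V` onto the
`μ`-eigenspace of `A` and `Pool.Agent.X8.AM.avgMixing A = ∑_μ E_μ ∘ E_μ` (sum over the distinct
eigenvalues of `A`, `∘` the entrywise product) is the average mixing matrix.

Sketch of the proof.  Let `θ` be the largest eigenvalue, `x > 0` the unit Perron vector,
`y_v = x_v²`, `S = ∑ y_v²`, `D = ∑ d_v y_v` and `T = 2m - θ²` (the sum of the squares of the other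
eigenvalues).  With `p_r(v) = (E_r)_{vv}` one has
`n - tr = 2 (1 - S) + ∑_v ∑_{r ≠ s ≥ 2} p_r(v) p_s(v)` and, since `(θ_r - θ_s)² ≤ 2T` for distinct
eigenvalues other than `θ`, a variance computation gives
`∑_v ∑_{r ≠ s ≥ 2} p_r(v) p_s(v) ≥ (T - D) / T`.  So the claim follows from
`D ≤ T (1 + 2/n - 2S)`.  This is proved in two cases.
* If `max y ≤ 27n / (64(n-1))`, then for every `w`
  `∑_{v : x_v > x_w} (y_v - y_w)² ≤ (32/27) max y · (1 - y_w - ∑_{u ~ w} y_u)`, and summing over `w`
  gives `D + 2(n-1)S ≤ (n-1)(1 + 2/n)`; one concludes with `T ≥ n - 1`.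
* Otherwise no triangle at the largest vertex `c` has its other two entries summing to more than
  `x_c`, which gives `θ² ≤ m`, i.e. `θ² ≤ T`, and one concludes with
  `D + 2θ²S ≤ θ² + 1` (valid for every connected graph, with equality for stars).
-/

namespace Pool.Agent.Results.MP_582e4a_co.CompleteGraphMaximal

open Pool.Agent.X8.AM

/-- For every `n` and every connected graph `G` on `n` vertices, the trace of the average mixing
matrix of `G` is at most that of `K_n`, which equals `(n² - 2n + 2)/n`. -/
theorem result :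
    (∀ (n : ℕ) (G : SimpleGraph (Fin n)) [DecidableRel G.Adj], G.Connected →
      (avgMixing (G.adjMatrix ℝ)).trace
        ≤ (avgMixing ((⊤ : SimpleGraph (Fin n)).adjMatrix ℝ)).trace) ∧
    (∀ n : ℕ, 1 ≤ n →
      (avgMixing ((⊤ : SimpleGraph (Fin n)).adjMatrix ℝ)).trace
        = ((n : ℝ) ^ 2 - 2 * n + 2) / n) := by
  refine ⟨fun n G _ hG => ?_, fun n hn => ?_⟩
  · have hne : Nonempty (Fin n) := hG.nonempty
    have h1 := main G hG
    have h2 := trace_top (V := Fin n) Fintype.card_pos
    rw [h2]
    exact h1
  · have h2 := trace_top (V := Fin n) (by simpa using hn)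
    simpa using h2

end Pool.Agent.Results.MP_582e4a_co.CompleteGraphMaximal
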